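import Mathlib

/-!
Deterministic NEC-voting (north, east, center) has an attractor outside the bunches of the two
constant configurations. The attractor is a row of triangles of ones of growing size, separated by
empty columns; at every time its trajectory has infinitely many ones and infinitely many zeroes.
-/

set_option autoImplicit false

namespace Pool.Agent.Results.MP_484523_pr.NonconstantAttractor

/-- A configuration: a map from the square lattice to the two symbols; `true` is `1`. -/
abbrev Config : Type := ℤ × ℤ → Bool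

/-- The majority value of three bits. -/
def maj (a b c : Bool) : Bool := (a && b) || (a && c) || (b && c)

/-- One step of NEC-voting: the new symbol at `s` is the majority of the symbols at `s`,
`s + (1, 0)` and `s + (0, 1)`. -/
def step (x : Config) : Config := fun s => maj (x s) (x (s + (1, 0))) (x (s + (0, 1)))

/-- The trajectory of the initial configuration `y`; `TR y n` is the configuration at the time
`n - 1`, so that `TR y 0 = y` is the configuration at time `-1`. -/
def TR (y : Config) (n : ℕ) : Config := step^[n] y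

/-- The initial configuration `y` is an attractor: for every finite perturbation `y'` of `y`, the
trajectory of `y'` differs from that of `y` at only finitely many space-time points. -/
def Attractor (y : Config) : Prop :=
  ∀ y' : Config, {s | y' s ≠ y s}.Finite → {p : (ℤ × ℤ) × ℕ | TR y' p.2 p.1 ≠ TR y p.2 p.1}.Finite

theorem TR_succ (y : Config) (n : ℕ) (s : ℤ × ℤ) :
    TR y (n + 1) s = maj (TR y n s) (TR y n (s + (1, 0))) (TR y n (s + (0, 1))) := by
  unfold TR
  rw [Function.iterate_succ_apply']
  rfl

/-- a column of zeroes stays a column of zeroes -/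
theorem zero_column (y : Config) (B : ℤ) (h : ∀ j, y (B, j) = false) (n : ℕ) (j : ℤ) :
    TR y n (B, j) = false := by
  induction n generalizing j with
  | zero => exact h j
  | succ n ih =>
    rw [TR_succ]
    have h1 := ih j
    have h2 : TR y n ((B, j) + (0, 1)) = false := by
      simpa using ih (j + 1)
    rw [h1, h2]
    simp [maj]

/-- the ones to the left of a zero column are erased linearly fast -/
theorem bound (y : Config) (A B C M : ℤ) (hB : ∀ j, y (B, j) = false)
    (h0 : ∀ i j, A ≤ i → i ≤ B → y (i, j) = true → C ≤ j ∧ i + j ≤ M) (n : ℕ) :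
    ∀ i j, A ≤ i → i ≤ B → TR y n (i, j) = true → C ≤ j ∧ i + j ≤ M - n := by
  induction n with
  | zero =>
    intro i j h1 h2 h3
    have := h0 i j h1 h2 h3
    simpa using this
  | succ n ih =>
    intro i j h1 h2 h3
    have hlt : i < B := by
      rcases lt_or_eq_of_le h2 with h | h
      · exact h
      · subst h
        rw [zero_column y i hB] at h3
        exact absurd h3 (by simp)
    rw [TR_succ] at h3
    have e1 : ((i, j) : ℤ × ℤ) + (1, 0) = (i + 1, j) := by simp
    have e2 : ((i, j) : ℤ × ℤ) + (0, 1) = (i, j + 1) := by simp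
    rw [e1, e2] at h3
    have key1 : TR y n (i, j) = true ∨ TR y n (i + 1, j) = true := by
      cases ha : TR y n (i, j) <;> cases hb : TR y n (i + 1, j) <;> simp_all [maj]
    have key2 : TR y n (i + 1, j) = true ∨ TR y n (i, j + 1) = true := by
      cases ha : TR y n (i + 1, j) <;> cases hb : TR y n (i, j + 1) <;> simp_all [maj]
    constructor
    · rcases key1 with h | h
      · exact (ih i j h1 h2 h).1
      · exact (ih (i + 1) j (by omega) (by omega) h).1
    · push_cast
      rcases key2 with h | h
      · have := (ih (i + 1) j (by omega) (by omega) h).2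
        omega
      · have := (ih i (j + 1) (by omega) (by omega) h).2
        omega

/-- to the left of a common zero column two trajectories agree if they agree initially -/
theorem agree_left (y y' : Config) (A : ℤ) (hA : ∀ j, y (A, j) = false)
    (hA' : ∀ j, y' (A, j) = false) (h : ∀ i j, i ≤ A → y' (i, j) = y (i, j)) (n : ℕ) :
    ∀ i j, i ≤ A → TR y' n (i, j) = TR y n (i, j) := by
  induction n with
  | zero => exact h
  | succ n ih =>
    intro i j hi
    rcases lt_or_eq_of_le hi with h1 | h1
    · rw [TR_succ, TR_succ]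
      have e1 : ((i, j) : ℤ × ℤ) + (1, 0) = (i + 1, j) := by simp
      have e2 : ((i, j) : ℤ × ℤ) + (0, 1) = (i, j + 1) := by simp
      rw [e1, e2, ih i j hi, ih (i + 1) j (by omega), ih i (j + 1) hi]
    · subst h1
      rw [zero_column y i hA, zero_column y' i hA']

/-- to the right of every column two trajectories agree if they agree initially -/
theorem agree_right (y y' : Config) (B : ℤ) (h : ∀ i j, B ≤ i → y' (i, j) = y (i, j)) (n : ℕ) :
    ∀ i j, B ≤ i → TR y' n (i, j) = TR y n (i, j) := by
  induction n with
  | zero => exact h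
  | succ n ih =>
    intro i j hi
    rw [TR_succ, TR_succ]
    have e1 : ((i, j) : ℤ × ℤ) + (1, 0) = (i + 1, j) := by simp
    have e2 : ((i, j) : ℤ × ℤ) + (0, 1) = (i, j + 1) := by simp
    rw [e1, e2, ih i j hi, ih (i + 1) j (by omega), ih i (j + 1) hi]

/-- The attractor: for every `k` the triangle of ones with the corner `((k + 1) ^ 2, 0)` and with
legs of length `k`. -/
noncomputable def islands : Config := by
  classical
  exact fun s => decide (∃ k : ℕ, ((k : ℤ) + 1) ^ 2 ≤ s.1 ∧ 0 ≤ s.2 ∧
    s.1 + s.2 ≤ ((k : ℤ) + 1) ^ 2 + k)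

theorem islands_iff (i j : ℤ) : islands (i, j) = true ↔
    ∃ k : ℕ, ((k : ℤ) + 1) ^ 2 ≤ i ∧ 0 ≤ j ∧ i + j ≤ ((k : ℤ) + 1) ^ 2 + k := by
  simp [islands]

/-- the columns before the islands are empty -/
theorem islands_gap (m : ℕ) (j : ℤ) : islands (((m : ℤ) + 1) ^ 2 - 1, j) = false := by
  rw [← Bool.not_eq_true, islands_iff]
  rintro ⟨k, h1, h2, h3⟩
  have hk : (0 : ℤ) ≤ k := Int.natCast_nonneg k
  have hm : (0 : ℤ) ≤ m := Int.natCast_nonneg m
  have h4 : (k : ℤ) + 1 ≤ m := by
    by_contra hc
    push Not at hc
    nlinarith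
  nlinarith

/-- the left half plane is empty -/
theorem islands_left (i j : ℤ) (hi : i ≤ 0) : islands (i, j) = false := by
  rw [← Bool.not_eq_true, islands_iff]
  rintro ⟨k, h1, -, -⟩
  have hk : (0 : ℤ) ≤ k := Int.natCast_nonneg k
  nlinarith

/-- every island survives for a time which is at least its size -/
theorem islands_alive (k n : ℕ) (i j : ℤ) (h1 : ((k : ℤ) + 1) ^ 2 ≤ i) (h2 : 0 ≤ j)
    (h3 : i + j + n ≤ ((k : ℤ) + 1) ^ 2 + k) : TR islands n (i, j) = true := by
  induction n generalizing i j with
  | zero =>
    exact (islands_iff i j).2 ⟨k, h1, h2, by simpa using h3⟩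
  | succ n ih =>
    rw [TR_succ]
    have e1 : ((i, j) : ℤ × ℤ) + (1, 0) = (i + 1, j) := by simp
    have e2 : ((i, j) : ℤ × ℤ) + (0, 1) = (i, j + 1) := by simp
    push_cast at h3
    rw [e1, e2, ih (i + 1) j (by omega) h2 (by omega), ih i (j + 1) h1 (by omega) (by omega)]
    simp [maj]

theorem islands_ones (n : ℕ) : {s | TR islands n s = true}.Infinite := by
  apply Set.infinite_of_injective_forall_mem (f := fun k : ℕ => ((((k + n : ℕ) : ℤ) + 1) ^ 2, (0 : ℤ)))
  · intro a b hab
    simp only [Prod.mk.injEq, and_true] at hab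
    push_cast at hab
    have ha : (0 : ℤ) ≤ a := Int.natCast_nonneg a
    have hb : (0 : ℤ) ≤ b := Int.natCast_nonneg b
    have hn : (0 : ℤ) ≤ n := Int.natCast_nonneg n
    have h1 : ((a : ℤ) - b) * ((a : ℤ) + n + 1 + (b + n + 1)) = 0 := by ring_nf; ring_nf at hab; linarith
    have h2 : (a : ℤ) + n + 1 + (b + n + 1) ≠ 0 := by positivity
    have h3 : (a : ℤ) - b = 0 := by
      rcases mul_eq_zero.1 h1 with h | h
      · exact h
      · exact absurd h h2
    have h4 : (a : ℤ) = b := by linarith
    exact_mod_cast h4
  · intro k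
    refine islands_alive (k + n) n _ 0 le_rfl le_rfl ?_
    push_cast
    have hk : (0 : ℤ) ≤ k := Int.natCast_nonneg k
    linarith

theorem islands_zeroes (n : ℕ) : {s | TR islands n s = false}.Infinite := by
  apply Set.infinite_of_injective_forall_mem (f := fun k : ℕ => ((0 : ℤ), (k : ℤ)))
  · intro a b hab
    simpa using hab
  · intro k
    exact zero_column islands 0 (fun j => islands_left 0 j le_rfl) n k

theorem bool_or : ∀ a b : Bool, a ≠ b → a = true ∨ b = true := by decide

theorem islands_attractor : Attractor islands := by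
  intro y' hfin
  -- the perturbed sites lie in a box
  obtain ⟨R, hR0, hR⟩ : ∃ R : ℤ, 0 ≤ R ∧ ∀ i j, y' (i, j) ≠ islands (i, j) →
      -R < i ∧ i < R ∧ -R ≤ j ∧ j ≤ R := by
    have h1 : ((fun s : ℤ × ℤ => |s.1| + |s.2| + 1) '' {s | y' s ≠ islands s}).Finite := hfin.image _
    obtain ⟨R, hR⟩ := h1.bddAbove
    refine ⟨max R 0, le_max_right _ _, ?_⟩
    intro i j hij
    have h2 : |i| + |j| + 1 ≤ R := hR ⟨(i, j), hij, rfl⟩
    have h3 := abs_nonneg i
    have h4 := abs_nonneg j
    have h5 := le_max_left R 0
    refine ⟨?_, ?_, ?_, ?_⟩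
    · have := neg_abs_le i; omega
    · have := le_abs_self i; omega
    · have := neg_abs_le j; omega
    · have := le_abs_self j; omega
  set A : ℤ := -R with hA
  obtain ⟨B, hB1, hB2⟩ : ∃ B : ℤ, R ≤ B ∧ ∀ j, islands (B, j) = false := by
    refine ⟨((R.toNat : ℤ) + 1) ^ 2 - 1, ?_, fun j => islands_gap _ j⟩
    rw [Int.toNat_of_nonneg hR0]
    nlinarith
  have heqL : ∀ i j, i ≤ A → y' (i, j) = islands (i, j) := by
    intro i j hi
    by_contra hc
    have := (hR i j hc).1
    omega
  have heqR : ∀ i j, B ≤ i → y' (i, j) = islands (i, j) := by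
    intro i j hi
    by_contra hc
    have := (hR i j hc).2.1
    omega
  have hAz : ∀ j, islands (A, j) = false := fun j => islands_left A j (by omega)
  have hAz' : ∀ j, y' (A, j) = false := fun j => by rw [heqL A j le_rfl, hAz j]
  have hBz' : ∀ j, y' (B, j) = false := fun j => by rw [heqR B j le_rfl, hB2 j]
  have h0 : ∀ i j, A ≤ i → i ≤ B → islands (i, j) = true → A ≤ j ∧ i + j ≤ 2 * B := by
    intro i j h1 h2 h3
    obtain ⟨k, g1, g2, g3⟩ := (islands_iff i j).1 h3
    have hk : (0 : ℤ) ≤ k := Int.natCast_nonneg k
    refine ⟨by omega, ?_⟩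
    nlinarith
  have h0' : ∀ i j, A ≤ i → i ≤ B → y' (i, j) = true → A ≤ j ∧ i + j ≤ 2 * B := by
    intro i j h1 h2 h3
    by_cases hc : y' (i, j) = islands (i, j)
    · exact h0 i j h1 h2 (hc ▸ h3)
    · have := hR i j hc
      omega
  have hb := bound islands A B A (2 * B) hB2 h0
  have hb' := bound y' A B A (2 * B) hBz' h0'
  -- the difference set lies in a box
  refine Set.Finite.subset (s := ((Set.Icc A B) ×ˢ (Set.Icc A (2 * B - A))) ×ˢ
    (Set.Iic ((2 * B - 2 * A).toNat))) ?_ ?_
  · exact ((Set.finite_Icc A B).prod (Set.finite_Icc _ _)).prod (Set.finite_Iic _)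
  · rintro ⟨⟨i, j⟩, n⟩ hne
    simp only [Set.mem_ofPred_eq] at hne
    have hi1 : A < i := by
      by_contra hc
      exact hne (agree_left islands y' A hAz hAz' heqL n i j (by omega))
    have hi2 : i < B := by
      by_contra hc
      exact hne (agree_right islands y' B heqR n i j (by omega))
    have hor : TR y' n (i, j) = true ∨ TR islands n (i, j) = true := by
      exact bool_or _ _ hne
    have hfinal : A ≤ j ∧ i + j ≤ 2 * B - n := by
      rcases hor with h | h
      · exact hb' n i j hi1.le hi2.le h
      · exact hb n i j hi1.le hi2.le h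
    simp only [Set.mem_prod, Set.mem_Icc, Set.mem_Iic]
    refine ⟨⟨⟨by omega, by omega⟩, ⟨by omega, by omega⟩⟩, ?_⟩
    omega

/-- **Theorem.** Deterministic NEC-voting has an attractor outside the bunches of all zeroes and of
all ones: there is an attractor `y` with infinitely many ones and infinitely many zeroes. Moreover
it can be chosen such that at every time its trajectory has infinitely many ones and infinitely many
zeroes, so that its trajectory is never a finite perturbation of a constant configuration. -/
theorem result : ∃ y : Config, Attractor y ∧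
    {s | y s = true}.Infinite ∧ {s | y s = false}.Infinite ∧
    ∀ n : ℕ, {s | TR y n s = true}.Infinite ∧ {s | TR y n s = false}.Infinite :=
  ⟨islands, islands_attractor, islands_ones 0, islands_zeroes 0,
    fun n => ⟨islands_ones n, islands_zeroes n⟩⟩

end Pool.Agent.Results.MP_484523_pr.NonconstantAttractor
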